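import Pool.Agent.H5.SelfAdj

set_option autoImplicit false

namespace Pool.Agent.Results.MP_cd4dc1_an.MinQ2

open Pool.Agent.H5

universe u

variable {X : Type u} [NormedAddCommGroup X] [NormedSpace ℂ X]

/-- every unit vector has exactly one norming functional of norm one -/
def Smooth (X : Type u) [NormedAddCommGroup X] [NormedSpace ℂ X] : Prop :=
  ∀ x : X, ‖x‖ = 1 → ∃! f : StrongDual ℂ X, ‖f‖ = 1 ∧ f x = 1

/-- `J` is the duality map -/
def IsDualityMap (J : X → StrongDual ℂ X) : Prop :=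
  ∀ x, ‖J x‖ = ‖x‖ ∧ J x x = (‖x‖ : ℂ) ^ 2

/-- self-adjoint operators -/
def SelfAdjoint (J : X → StrongDual ℂ X) (T : X →L[ℂ] X) : Prop :=
  ∀ x y, J (T x) y = J x (T y)

/-- strongly normal operators -/
def StronglyNormal (J : X → StrongDual ℂ X) (T : X →L[ℂ] X) : Prop :=
  ∃ S : X →L[ℂ] X, SelfAdjoint J S ∧ T = S ^ 2

/-- the minimum modulus -/
noncomputable def minMod (T : X →L[ℂ] X) : ℝ := ⨅ x : {x : X // ‖x‖ = 1}, ‖T x.1‖

/-- The operator of Q2 is strongly normal. -/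
theorem result (X : Type u) [NormedAddCommGroup X] [NormedSpace ℂ X] [CompleteSpace X]
    (hX : Smooth X) (J : X → StrongDual ℂ X) (hJ : IsDualityMap J) (T : X →L[ℂ] X)
    (hT : SelfAdjoint J T) :
    StronglyNormal J (T ^ 2 - (minMod T : ℂ) ^ 2 • (1 : X →L[ℂ] X)) := by
  have h := SelfAdj.mk_dual hX (fun x => (hJ x).1) fun x => (hJ x).2
  obtain ⟨S, h1, h2⟩ := SelfAdj.root h hT le_rfl
  have h3 : 0 ≤ minMod T := Real.iInf_nonneg fun x => norm_nonneg _
  have h4 : ∀ x : {x : X // ‖x‖ = 1}, minMod T ≤ ‖T x.1‖ := fun x =>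
    ciInf_le ⟨0, by rintro _ ⟨x, rfl⟩; exact norm_nonneg _⟩ x
  have h5 : minMod T ≤ ‖T‖ := by
    rcases isEmpty_or_nonempty {x : X // ‖x‖ = 1} with h6 | ⟨⟨x⟩⟩
    · exact (Real.iInf_of_isEmpty _).trans_le (norm_nonneg _)
    · exact (h4 x).trans (T.unit_le_opNorm _ x.2.le)
  have h6 := sub_nonneg.2 (pow_le_pow_left₀ h3 h5 2)
  obtain ⟨R, h7, h8⟩ := SelfAdj.root h h1 (c := √(‖T‖ ^ 2 - minMod T ^ 2))
    (ContinuousLinearMap.opNorm_le_of_unit_norm (Real.sqrt_nonneg _) fun x hx => by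
      have k1 := SelfAdj.re_val h (S x)
      have k2 := SelfAdj.re_val h (T x)
      rw [h1, show S (S x) = (S ^ 2) x by rw [sq]; rfl, h2, sub_apply, map_sub, smul_apply,
        map_smul, one_apply_eq_self, Complex.sub_re, smul_eq_mul, ← Complex.ofReal_pow,
        Complex.re_ofReal_mul, SelfAdj.re_val h, hx] at k1
      rw [hT, show T (T x) = (T ^ 2) x by rw [sq]; rfl] at k2
      exact Real.le_sqrt_of_sq_le (by linarith [pow_le_pow_left₀ h3 (h4 ⟨x, hx⟩) 2]))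
  refine ⟨R, h7, ?_⟩
  rw [h8, h2, ← Complex.ofReal_pow √_, Real.sq_sqrt h6, Complex.ofReal_sub, Complex.ofReal_pow,
    Complex.ofReal_pow, sub_smul]
  abel

end Pool.Agent.Results.MP_cd4dc1_an.MinQ2
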