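import Pool.Agent.H5.SelfAdj

set_option autoImplicit false

namespace Pool.Agent.Results.MP_cd4dc1_an.NormQ1

open Pool.Agent.H5

universe u

variable {X : Type u} [NormedAddCommGroup X] [NormedSpace ℂ X]

/-- every unit vector has exactly one norming functional of norm one -/
def Smooth (X : Type u) [NormedAddCommGroup X] [NormedSpace ℂ X] : Prop :=
  ∀ x : X, ‖x‖ = 1 → ∃! f : StrongDual ℂ X, ‖f‖ = 1 ∧ f x = 1

/-- `J` is the duality map -/
def IsDualityMap (J : X → StrongDual ℂ X) : Prop :=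
  ∀ x, ‖J x‖ = ‖x‖ ∧ J x x = (‖x‖ : ℂ) ^ 2

/-- self-adjoint operators -/
def SelfAdjoint (J : X → StrongDual ℂ X) (T : X →L[ℂ] X) : Prop :=
  ∀ x y, J (T x) y = J x (T y)

/-- strongly normal operators -/
def StronglyNormal (J : X → StrongDual ℂ X) (T : X →L[ℂ] X) : Prop :=
  ∃ S : X →L[ℂ] X, SelfAdjoint J S ∧ T = S ^ 2

/-- The operator of Q1 is strongly normal. -/
theorem result (X : Type u) [NormedAddCommGroup X] [NormedSpace ℂ X] [CompleteSpace X]
    (hX : Smooth X) (J : X → StrongDual ℂ X) (hJ : IsDualityMap J) (T : X →L[ℂ] X)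
    (hT : SelfAdjoint J T) :
    StronglyNormal J ((‖T‖ : ℂ) ^ 2 • (1 : X →L[ℂ] X) - T ^ 2) := by
  obtain ⟨S, h1, h2⟩ := SelfAdj.root (SelfAdj.mk_dual hX (fun x => (hJ x).1) fun x => (hJ x).2) hT
    le_rfl
  exact ⟨S, h1, h2.symm⟩

end Pool.Agent.Results.MP_cd4dc1_an.NormQ1
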